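import Pool.Agent.H75.CF.Main

/-!
# MP_ff40e8_al: rank rigidity for spaces with a coarsely separating flat

Let `G` act geometrically on an irreducible, locally compact, geodesically complete CAT(0) space
`X`, and let `F` be a flat of dimension at least two in `X` such that the complement of some
neighbourhood `{z | d(z, F) ≤ r}` is not path connected (`r = 0`: `X ∖ F` is not path connected).
Then `G` contains a rank-one isometry.  Nothing is assumed about the stabiliser of `F`, or about
how the translates of `F` cross each other.
-/

open Set
open Pool.Agent.H29

namespace Pool.Agent.Results.MP_ff40e8_al.CoarselySeparatingFlat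

/-- The space `X` is CAT(0), locally compact, geodesically complete and irreducible; the group `G`
acts on it by isometries, properly discontinuously and cocompactly.  The map `φ` is an isometric
embedding of a Euclidean space `V` of dimension at least two, and `F = range φ` is a flat. The points
`x`, `y` have distance more than `r` from `F` and are joined by no path consisting of points at
distance more than `r` from `F`.  Then some element of `G` is a rank-one isometry of `X`. -/
theorem result {G : Type*} {X : Type*} [Group G] [MetricSpace X] [IsCAT0 X]
    [LocallyCompactSpace X] [MulAction G X] [IsIsometricSMul G X]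
    [ProperlyDiscontinuousSMul G X] (hcoc : Cocompact G X) (hgc : GeodesicallyComplete X)
    (hirr : MetricIrreducible X)
    {V : Type*} [NormedAddCommGroup V] [InnerProductSpace ℝ V] [FiniteDimensional ℝ V]
    (hdim : 2 ≤ Module.finrank ℝ V) (φ : V → X) (hφ : Isometry φ) (r : ℝ) (x y : X)
    (hx : r < Metric.infDist x (range φ)) (hy : r < Metric.infDist y (range φ))
    (hxy : ¬ JoinedIn {z | r < Metric.infDist z (range φ)} x y) :
    ∃ g : G, IsRankOne (X := X) g := by
  have : Nonempty X := ⟨x⟩
  have : ProperSpace X := hcoc.properSpace
  exact Pool.Agent.H75.CF.rankOne_of_coarsely_separating_flat hcoc hgc hirr hdim hφ hx hy hxy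

end Pool.Agent.Results.MP_ff40e8_al.CoarselySeparatingFlat
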