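import Pool.Agent.H29.RR.WallMain
import Pool.Agent.H74.CD5
import Pool.Agent.H74.CDDefs

/-!
# MP_ff40e8_al: rank rigidity for groups with convex cocompact walls of finite width

Let `G` act geometrically on an irreducible, locally compact, geodesically complete CAT(0) space
`X`, and on a set `V` with half-spaces `h₂ ⊆ h₁` (for instance half-spaces of a tree or of a finite
dimensional CAT(0) cube complex on which `G` acts).  If any two points of `V` are separated by
finitely many translates of `h₁` and `h₂`, pairwise crossing families of translates are finite, some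
`p` in `G` maps `h₁` into `h₂` properly, and the common stabiliser of `h₁` and `h₂` is convex cocompact in
`X`, then `G` contains a rank-one isometry of `X`.
-/

open Set
open Pool.Agent.H29 Pool.Agent.H74.CC Pool.Agent.H29.RR
open scoped Pointwise

namespace Pool.Agent.Results.MP_ff40e8_al.FiniteWidthWalls

/-- The space `X` is CAT(0), locally compact, geodesically complete and irreducible; the group `G`
acts on it by isometries, properly discontinuously and cocompactly. The group `G` acts on the set
`V`; `h₂ ⊆ h₁` are subsets of `V`; any two points of `V` are separated by finitely many translates of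
`h₁` and of `h₂` (`hs₁`, `hs₂`); sets of pairwise crossing translates of `h₁`, or of `h₂`, are finite
(`hw₁`, `hw₂`); the element `p` maps `h₁` into `h₂`, and not onto `h₁`; the common stabiliser `K` of `h₁`
and `h₂` acts cocompactly on a nonempty closed convex subset `Y` of `X`.  Then some element of `G` is
a rank-one isometry of `X`. -/
theorem result {G : Type*} {X : Type*} {V : Type*} [Group G] [MetricSpace X] [IsCAT0 X]
    [LocallyCompactSpace X] [Nonempty X] [MulAction G X] [IsIsometricSMul G X]
    [ProperlyDiscontinuousSMul G X] (hcoc : Cocompact G X) (hgc : GeodesicallyComplete X)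
    (hirr : MetricIrreducible X)
    [MulAction G V] (h₁ h₂ : Set V) (hle : h₂ ⊆ h₁)
    (hs₁ : ∀ v w : V, {S : Set V | (∃ g : G, S = g • h₁) ∧ v ∈ S ∧ w ∉ S}.Finite)
    (hs₂ : ∀ v w : V, {S : Set V | (∃ g : G, S = g • h₂) ∧ v ∈ S ∧ w ∉ S}.Finite)
    (hw₁ : ∀ T : Set (Set V), (∀ S ∈ T, ∃ g : G, S = g • h₁) → T.Pairwise Crossing → T.Finite)
    (hw₂ : ∀ T : Set (Set V), (∀ S ∈ T, ∃ g : G, S = g • h₂) → T.Pairwise Crossing → T.Finite)
    (p : G) (hp : p • h₁ ⊆ h₂) (hne : p • h₁ ≠ h₁)
    (K : Subgroup G) (hK : ∀ g : G, g ∈ K ↔ g • h₁ = h₁ ∧ g • h₂ = h₂)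
    (Y : Set X) (hY : ConvexCocompactOn K Y) :
    ∃ g : G, IsRankOne (X := X) g := by
  have : ProperSpace X := hcoc.properSpace
  obtain ⟨h1, h2, h3, h4, h5⟩ := hY
  have hC : RR.CCo X K := ⟨Y, ⟨h1, gconvex_of_interval h3, h4⟩, h2, h5⟩
  have hKeq : K = RR.KI G h₁ h₂ := by
    ext g
    rw [hK]
    rfl
  rw [hKeq] at hC
  exact RR.rankOne_of_walls hgc hcoc hirr hle hs₁ hs₂ hw₁ hw₂ hC hp hne

end Pool.Agent.Results.MP_ff40e8_al.FiniteWidthWalls
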