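import Pool.Agent.H25.PE.Main

/-!
# CAT(0) groups of purely exponential growth contain rank-one isometries

Let the infinite group `G` act geometrically on a locally compact CAT(0) space `X` (geodesic
completeness and irreducibility are not needed), let `x ∈ X` and let `N(n)` be the number of `g ∈ G` with
`d(x, gx) ≤ n`. If `G` contains no rank-one isometry then
`∑_{i ≤ n} N(i) N(n-i) ≥ c n √(log n) N(n)` for all large `n`, with some `c > 0`. Hence `N` is not purely
exponential: `a e^{δn} ≤ N(n) ≤ b e^{δn}` would bound the sum by `C n N(n)`.

Sketch of the proof (`|k| = d(x, kx)`).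

* Call an integer `i` a gate of size `T` of `k` if, seen from a point `gx` of the orbit near the point of
  `[x, kx]` at distance `i` from `x`, all segments from the direction of `x` to the direction of `kx` (up to `2`
  at radius `T`) meet the ball of radius `T` around `gx`. If `i < j` are gates of `k`, not too near to each
  other, whose directions towards `x` agree, then the element `g⁻¹h` is a rank-one isometry
  (`Pigeon.lean`). So every `k` has at most `C e^{κT}` gates of size `T` (`Few.lean`).
* If `i` is not a gate then there is a third direction at `gx`: a segment `[gx, z]` of length `T` whose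
  points at distance `t`, `t² ≤ T`, from `gx` are at distance at most `d(x, gx) + 3` from `x` and
  at most `d(gx, kx) + 3` from `kx` (`Wide.lean`). So there are at least `c √T` elements `h` with
  `|h| ≤ i + C` and `|h⁻¹k| ≤ |k| - i + C` (`Points.lean`).
* Count the triples `(k, i, h)` with `|k| ≤ n` (`Sum.lean`) with `T = ε log n` (`Final.lean`).
-/

open Set Filter

namespace Pool.Agent.Results.MP_ff40e8_al.PurelyExponentialGrowth

open Pool.Agent.H29

/-- `orbitCount G x n` is the number of elements of `G` which move `x` by at most `n`. -/
noncomputable def orbitCount (G : Type*) {X : Type*} [Group G] [MetricSpace X] [MulAction G X]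
    (x : X) (n : ℕ) : ℕ := {g : G | dist x (g • x) ≤ n}.ncard

/-- The space `X` is CAT(0) and locally compact; the infinite group `G` acts on it by isometries,
properly discontinuously and cocompactly; `N(n) = orbitCount G x n`. If the lower limit of
`(∑_{i ≤ n} N(i) N(n-i)) / (n √(log n) N(n))` is `0` (for instance if `N` is purely exponential), then
some element of `G` is a rank-one isometry of `X`. -/
theorem result {G : Type*} {X : Type*} [Group G] [Infinite G] [MetricSpace X] [IsCAT0 X]
    [LocallyCompactSpace X] [MulAction G X] [IsIsometricSMul G X]
    [ProperlyDiscontinuousSMul G X] (hcoc : Cocompact G X) (x : X)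
    (hgrowth : ∀ ε : ℝ, 0 < ε → ∃ᶠ n : ℕ in atTop,
      ∑ i ∈ Finset.range (n + 1), (orbitCount G x i : ℝ) * orbitCount G x (n - i) ≤
        ε * (n * √(Real.log n) * orbitCount G x n)) :
    ∃ g : G, IsRankOne (X := X) g :=
  Pool.Agent.H25.PE.rankOne_of_growth hcoc x hgrowth

end Pool.Agent.Results.MP_ff40e8_al.PurelyExponentialGrowth
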