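import Pool.Agent.H29.RR.Geo4
import Pool.Agent.H74.CD5
import Pool.Agent.H74.CDDefs

/-!
# MP_ff40e8_al: rank rigidity from a separating periodic convex set

Let `G` act geometrically on an irreducible, locally compact, geodesically complete CAT(0) space
`X`.  If some subgroup of `G` acts cocompactly on a closed convex subset `D` whose complement is
not path connected, and families of pairwise intersecting translates of `D` are finite, then `G`
contains a rank-one isometry of `X`.
-/

open Set
open Pool.Agent.H29 Pool.Agent.H74.CC
open scoped Pointwise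

namespace Pool.Agent.Results.MP_ff40e8_al.SeparatingConvexSet

/-- The space `X` is CAT(0), locally compact, geodesically complete and irreducible; the group `G`
acts on it by isometries, properly discontinuously and cocompactly. The subgroup `K` acts
cocompactly on the nonempty closed convex subset `D`; the complement of `D` is not path connected
(`hsep`), and every set of pairwise intersecting translates of `D` is finite (`hwidth`).  Then some
element of `G` is a rank-one isometry of `X`. -/
theorem result {G : Type*} {X : Type*} [Group G] [MetricSpace X] [IsCAT0 X]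
    [LocallyCompactSpace X] [Nonempty X] [MulAction G X] [IsIsometricSMul G X]
    [ProperlyDiscontinuousSMul G X] (hcoc : Cocompact G X) (hgc : GeodesicallyComplete X)
    (hirr : MetricIrreducible X)
    (K : Subgroup G) (D : Set X) (hD : ConvexCocompactOn K D)
    (hsep : ∃ x y : X, x ∉ D ∧ y ∉ D ∧ ¬ JoinedIn Dᶜ x y)
    (hwidth : ∀ T : Set (Set X), (∀ S ∈ T, ∃ g : G, S = g • D) →
      (∀ S ∈ T, ∀ S' ∈ T, (S ∩ S').Nonempty) → T.Finite) :
    ∃ g : G, IsRankOne (X := X) g := by
  have : ProperSpace X := hcoc.properSpace
  obtain ⟨h1, h2, h3, h4, B, hB, hc⟩ := hD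
  have hinv : ∀ k ∈ K, k • D = D := by
    intro k hk
    apply Set.Subset.antisymm
    · rintro _ ⟨x, hx, rfl⟩
      exact h4 k hk x hx
    · intro x hx
      rw [Set.mem_smul_set_iff_inv_smul_mem]
      exact h4 k⁻¹ (K.inv_mem hk) x hx
  refine RR.rankOne_of_pwall hgc hcoc hirr (D := D) ⟨h1, h2, gconvex_of_interval h3, B, hB, ?_⟩
    hwidth hsep
  intro x hx
  obtain ⟨k, hk, hkB⟩ := hc x hx
  exact ⟨k, hinv k hk, hkB⟩

end Pool.Agent.Results.MP_ff40e8_al.SeparatingConvexSet
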